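import Pool.Agent.Helper55.RT.Def3
import Pool.Agent.Helper44.Thin.RSV0

/-!
# RSH: from the constant field extension `κ(t)` to `K = k(t)`
-/

set_option autoImplicit false
set_option linter.all false

open Polynomial IsDedekindDomain
open scoped Classical

namespace Pool.Agent.Helper8.Thin.RSH0

open Pool.Agent.TH115.GD Pool.Agent.Helper55.RL Pool.Agent.Helper55.RT Pool.Agent.Helper44.Thin.RSV

theorem rsh : ∀ (p : ℕ) [Fact p.Prime] (k k' K F : Type) [Field k] [CharZero k] [Field k']
  [Algebra k k'] [Field K] [Algebra k[X] K] [Field F] [Algebra k'[X] F] [IsFractionRing k'[X] F]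
  [Algebra K F], IsTower k k' K F → ∀ (κ : IntermediateField k k') (K' : Type) [Field K']
  [Algebra κ[X] K'] [Algebra K' F], IsTower κ k' K' F → ∀ (ℓ : ℕ) (P D : k[X]),
  NoArtin p k' K' F (⊥ : IntermediateField K' (Sep F)) ℓ (P.map (algebraMap k κ))
    (D.map (algebraMap k κ)) →
  NoArtin p k' K F (IntermediateField.adjoin K
    ((fun e : k' => algebraMap F (Sep F) (algebraMap k'[X] F (C e))) '' (κ : Set k'))) ℓ P D := by
  intro p _ k k' K F _ _ _ _ _ _ _ _ _ _ hT κ K' _ _ _ hT' ℓ P D h
  have hx := alg_sub' (k := k) (k₂ := κ) hT hT'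
  haveI := hT'.sep
  haveI := hT'.fracK
  haveI : IsSepClosure K' (Sep F) := sepKΩ hT'.map
  haveI : Algebra.IsSeparable K' (Sep F) := IsSepClosure.separable
  set r := res (F := F) hx with hr
  have hrc : Continuous r := res_cont hx
  have hrs : ∀ σ : Sep F ≃ₐ[F] Sep F, r (σ.restrictScalars K') = σ.restrictScalars K := by
    intro σ
    ext x
    rfl
  have hmap : ∀ Q : k[X], (Q.map (algebraMap k κ)).map (algebraMap κ k') =
      Q.map (algebraMap k k') := by
    intro Q
    rw [Polynomial.map_map, ← IsScalarTower.algebraMap_eq]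
  have hmap2 : (P.map (algebraMap k κ) * D.map (algebraMap k κ)).map (algebraMap κ k') =
      (P * D).map (algebraMap k k') := by
    rw [Polynomial.map_mul, Polynomial.map_mul, hmap, hmap]
  have hae : ∀ (Q : k[X]) (θ : k'), aeval θ (Q.map (algebraMap k κ)) = aeval θ Q := by
    intro Q θ
    rw [aeval_map_algebraMap]
  intro m hm d ρ hρ hpro hun hno δ hδ hδf hδF c hc hloc j
  have hact : ∀ (σ : Sep F ≃ₐ[F] Sep F) (y : Fin d → ℚ_[p]),
      actQ (ρ.comp r) (σ.restrictScalars K') y = actQ ρ (σ.restrictScalars K) y := by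
    intro σ y
    unfold actQ
    rw [MonoidHom.comp_apply, hrs]
  have hcob : ∀ j v, LocCobAt k' ρ (c j) v → LocCobAt k' (ρ.comp r) (c j) v := by
    rintro j v ⟨ι, y, hy⟩
    exact ⟨ι, y, fun σ hσ => by rw [hy σ hσ, hact]⟩
  have hfix : ∀ σ : Sep F ≃ₐ[K'] Sep F, ∀ x ∈ IntermediateField.adjoin K
      ((fun e : k' => algebraMap F (Sep F) (algebraMap k'[X] F (C e))) '' (κ : Set k')),
      r σ x = x := by
    intro σ x hx'
    have hle : IntermediateField.adjoin K
        ((fun e : k' => algebraMap F (Sep F) (algebraMap k'[X] F (C e))) '' (κ : Set k')) ≤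
        IntermediateField.fixedField (Subgroup.zpowers (r σ)) := by
      rw [IntermediateField.adjoin_le_iff]
      rintro _ ⟨e, he, rfl⟩
      rw [SetLike.mem_coe, IntermediateField.mem_fixedField_iff]
      intro g hg
      obtain ⟨n, rfl⟩ := Subgroup.mem_zpowers_iff.1 hg
      have h1 : algebraMap F (Sep F) (algebraMap k'[X] F (C e)) =
          algebraMap K' (Sep F) (algebraMap κ[X] K' (C ⟨e, he⟩)) := by
        rw [IsScalarTower.algebraMap_apply K' F (Sep F), hT'.map, Polynomial.map_C]
        rfl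
      rw [← map_zpow, res_apply]
      show (σ ^ n) (algebraMap F (Sep F) (algebraMap k'[X] F (C e))) =
        algebraMap F (Sep F) (algebraMap k'[X] F (C e))
      rw [h1]
      exact (σ ^ n).commutes _
    have := hle hx'
    rw [IntermediateField.mem_fixedField_iff] at this
    exact this _ (Subgroup.mem_zpowers _)
  have hdeg : (D.map (algebraMap k κ)).natDegree = D.natDegree := by
    rw [Polynomial.natDegree_map]
  obtain ⟨y, hy⟩ := h m (by rw [hdeg]; exact hm) d (ρ.comp r) (hρ.comp hrc) (by
      intro σ _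
      obtain ⟨e, he⟩ := hpro (r σ) (hfix σ)
      refine ⟨e, fun i j => ?_⟩
      have := he i j
      rw [← map_pow] at this
      exact this) (by
      intro v hv ι σ hσ
      rw [MonoidHom.comp_apply, hrs]
      rw [hmap2] at hv
      exact hun v hv ι σ hσ) (by
      intro θ hθ ι y hy
      rw [hae] at hθ
      exact hno θ hθ ι y fun σ hσ => by rw [← hact]; exact hy σ hσ) (δ.comp r) (hδ.comp hrc)
    (hδf.subset (by
      rintro _ ⟨τ, rfl⟩
      exact ⟨r τ, rfl⟩))
    (fun σ => by rw [MonoidHom.comp_apply, hrs]; exact hδF σ) c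
    { cont := hc.cont
      mul := fun j σ τ => by rw [hact]; exact hc.mul j σ τ
      equiv := fun τ j => by
        obtain ⟨y, hy⟩ := hc.equiv (r τ) j
        refine ⟨y, fun σ σ' hσ => ?_⟩
        rw [hact]
        exact hy σ σ' hσ }
    (fun j => ⟨fun v hv => by
        rw [hmap2] at hv
        exact hcob j v ((hloc j).1 v hv), fun θ hθ => by
        rw [hae] at hθ
        exact hcob j _ ((hloc j).2 θ hθ)⟩) j
  exact ⟨y, fun σ => by rw [hy, hact]⟩

end Pool.Agent.Helper8.Thin.RSH0
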