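import Pool.Agent.Helper55.RT.Spec5
import Pool.Agent.Helper8.Thin.RSH0

/-!
# RSH: from the constant field extension `κ(t)` to `K = k(t)`
-/

set_option autoImplicit false
set_option linter.all false

namespace Pool.Agent.Helper8.Thin.RSH

theorem main : Pool.Agent.Helper55.RT.Q_RSH := Pool.Agent.Helper8.Thin.RSH0.rsh

end Pool.Agent.Helper8.Thin.RSH
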